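import Pool.Agent.R922.BN.Final

/-!
# MP_3eba60_lc, Q1: yes

Every real which is Bernoulli random in base `b` is normal (with uniform densities) in every base
multiplicatively independent of `b`.
-/

open Set
open Pool.Agent.R922.BN

namespace Pool.Agent.Results.MP_3eba60_lc.Yes

lemma dig_one (b : ℕ) [NeZero b] (i : ℕ) : dig b 1 i = dig b 0 i := by
  apply Fin.ext
  rw [dig_val, dig_val, mul_one, mul_zero, Nat.floor_zero]
  have : ⌊(b : ℝ) ^ (i + 1)⌋₊ = b ^ (i + 1) := by
    have : (b : ℝ) ^ (i + 1) = ((b ^ (i + 1) : ℕ) : ℝ) := by push_cast; rfl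
    rw [this, Nat.floor_natCast]
  rw [this, pow_succ, Nat.mul_mod_left, Nat.zero_mod]

theorem result (b : ℕ) [NeZero b] (hb : 2 ≤ b) (p : Densities b) (x : ℝ) (hx : x ∈ Icc (0:ℝ) 1)
    (hX : BernoulliRandom b p x) (b' : ℕ) [NeZero b'] (hb' : 2 ≤ b') (hind : MultIndep b b') :
    ∃ q : Densities b', (∀ d, q.val d = 1 / b') ∧ BiasedNormal b' q x := by
  refine ⟨unif b' (by omega), fun d => rfl, ?_⟩
  rcases hx.2.lt_or_eq with h1 | h1
  · exact normal_of_random b hb p hx.1 h1 hX b' hb' hind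
  · subst h1
    have h2 : ∀ (c : ℕ) [NeZero c], dig c 1 = dig c 0 := fun c _ => funext (dig_one c)
    have h3 : BernoulliRandom b p 0 := by
      unfold BernoulliRandom at hX ⊢
      rwa [h2 b] at hX
    have h4 := normal_of_random b hb p (le_refl 0) zero_lt_one h3 b' hb' hind
    unfold BiasedNormal at h4 ⊢
    rw [h2 b']
    exact h4

end Pool.Agent.Results.MP_3eba60_lc.Yes
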